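import Pool.Agent.Helper24.BarMain

set_option autoImplicit false

namespace Pool.Agent.Results.MP_4dedcc_co.EdgeMaximum

open Pool.Agent.Helper24.BarVis

theorem result :
    (∀ n : ℕ, 12 ≤ n → IsGreatest (edgeCounts 2 n) (9 * n - 42)) ∧
    (∀ n : ℕ, n ≤ 12 → IsGreatest (edgeCounts 2 n) (n.choose 2)) ∧
    (∀ k n : ℕ, 4 * k + 4 ≤ n →
      IsGreatest (edgeCounts k n) ((k + 1) * (3 * n - (4 * k + 6)))) ∧
    (∀ k n : ℕ, n ≤ 4 * k + 4 → IsGreatest (edgeCounts k n) (n.choose 2)) :=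
  main

end Pool.Agent.Results.MP_4dedcc_co.EdgeMaximum
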